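import Mathlib

/-!
# MP_7c50a9_lc, section 1: comparing components

`CompBij W W'`: `W ⊆ W'` and the inclusion is a bijection on connected components.
-/

namespace Pool.Agent.QC.S1

open Set Topology

variable {X : Type*} [TopologicalSpace X]

/-- The inclusion `W ⊆ W'` is bijective on connected components. -/
structure CompBij (W W' : Set X) : Prop where
  sub : W ⊆ W'
  ex : ∀ x ∈ W', ∃ y ∈ W, y ∈ connectedComponentIn W' x
  un : ∀ a ∈ W, ∀ b ∈ W, b ∈ connectedComponentIn W' a → b ∈ connectedComponentIn W a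

theorem cc_mono {W W' : Set X} (h : W ⊆ W') {a b : X} (hb : b ∈ connectedComponentIn W a) :
    b ∈ connectedComponentIn W' a := connectedComponentIn_mono a h hb

theorem cc_symm {W : Set X} {a b : X} (hb : b ∈ connectedComponentIn W a) :
    a ∈ connectedComponentIn W b := by
  rw [← connectedComponentIn_eq hb]
  refine mem_connectedComponentIn ?_
  by_contra hcon
  rw [connectedComponentIn_eq_empty hcon] at hb
  exact hb

theorem cc_trans {W : Set X} {a b c : X} (hb : b ∈ connectedComponentIn W a)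
    (hc : c ∈ connectedComponentIn W b) : c ∈ connectedComponentIn W a := by
  rwa [connectedComponentIn_eq hb]

theorem cc_mem {W : Set X} {a b : X} (hb : b ∈ connectedComponentIn W a) : b ∈ W :=
  connectedComponentIn_subset _ _ hb

theorem cc_mem' {W : Set X} {a b : X} (hb : b ∈ connectedComponentIn W a) : a ∈ W :=
  cc_mem (cc_symm hb)

theorem CompBij.refl (W : Set X) : CompBij W W :=
  ⟨subset_rfl, fun x hx => ⟨x, hx, mem_connectedComponentIn hx⟩, fun _ _ _ _ h => h⟩

theorem CompBij.trans {A B C : Set X} (h : CompBij A B) (h' : CompBij B C) : CompBij A C := by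
  refine ⟨h.sub.trans h'.sub, fun x hx => ?_, fun a ha b hb hab => ?_⟩
  · obtain ⟨y, hy, hyx⟩ := h'.ex x hx
    obtain ⟨z, hz, hzy⟩ := h.ex y hy
    exact ⟨z, hz, cc_trans hyx (cc_mono h'.sub hzy)⟩
  · exact h.un a ha b hb (h'.un a (h.sub ha) b (h.sub hb) hab)

/-- Two out of three (left). -/
theorem CompBij.of_comp {A B C : Set X} (hAB : A ⊆ B) (h : CompBij A C) (h' : CompBij B C) :
    CompBij A B := by
  refine ⟨hAB, fun x hx => ?_, fun a ha b hb hab => ?_⟩
  · obtain ⟨y, hy, hyx⟩ := h.ex x (h'.sub hx)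
    exact ⟨y, hy, h'.un x hx y (hAB hy) hyx⟩
  · exact h.un a ha b hb (cc_mono h'.sub hab)

/-- The sandwich lemma. -/
theorem CompBij.sandwich {A B C D : Set X} (hAB : A ⊆ B) (hBC : B ⊆ C) (hCD : C ⊆ D)
    (h : CompBij A C) (h' : CompBij B D) : CompBij A B ∧ CompBij B C ∧ CompBij C D := by
  have hBC' : CompBij B C := by
    refine ⟨hBC, fun x hx => ?_, fun a ha b hb hab => ?_⟩
    · obtain ⟨y, hy, hyx⟩ := h.ex x hx
      exact ⟨y, hAB hy, hyx⟩
    · exact h'.un a ha b hb (cc_mono hCD hab)
  have hAB' : CompBij A B := CompBij.of_comp hAB h hBC'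
  refine ⟨hAB', hBC', ⟨hCD, fun x hx => ?_, fun a ha b hb hab => ?_⟩⟩
  · obtain ⟨y, hy, hyx⟩ := h'.ex x hx
    exact ⟨y, hBC hy, hyx⟩
  · -- go down to `A`
    obtain ⟨a', ha', haa'⟩ := h.ex a ha
    obtain ⟨b', hb', hbb'⟩ := h.ex b hb
    have h1 : b' ∈ connectedComponentIn D a' :=
      cc_trans (cc_symm (cc_mono hCD haa')) (cc_trans hab (cc_mono hCD hbb'))
    have h2 : b' ∈ connectedComponentIn B a' := h'.un a' (hAB ha') b' (hAB hb') h1
    exact cc_trans haa' (cc_trans (cc_mono hBC h2) (cc_symm hbb'))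

/-- If `W ⊆ W'` is bijective on components, the components of `W` are the traces of those of
`W'`. -/
theorem CompBij.trace {W W' : Set X} (h : CompBij W W') {a : X} (ha : a ∈ W) :
    connectedComponentIn W a = W ∩ connectedComponentIn W' a := by
  apply Subset.antisymm
  · exact fun b hb => ⟨cc_mem hb, cc_mono h.sub hb⟩
  · exact fun b hb => h.un a ha b hb.1 hb.2

/-! ### Counting -/

theorem connectedComponents_eq_iff {W : Set X} (a b : W) :
    (ConnectedComponents.mk a : ConnectedComponents W) = ConnectedComponents.mk b ↔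
      (b : X) ∈ connectedComponentIn W a := by
  rw [ConnectedComponents.coe_eq_coe', connectedComponentIn_eq_image a.2]
  constructor
  · intro h
    exact ⟨b, by
      have : connectedComponent a = connectedComponent b :=
        connectedComponent_eq_iff_mem.mpr (by simpa using h) |>.symm ▸ rfl
      rw [this]; exact mem_connectedComponent, rfl⟩
  · rintro ⟨c, hc, hcb⟩
    have : c = b := Subtype.ext hcb
    subst this
    have h1 : connectedComponent a = connectedComponent c := connectedComponent_eq hc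
    rw [← h1]
    exact mem_connectedComponent

/-- The bijection on components. -/
theorem CompBij.exists_bijective {W W' : Set X} (h : CompBij W W') :
    ∃ f : ConnectedComponents W → ConnectedComponents W', Function.Bijective f := by
  refine ⟨(continuous_inclusion h.sub).connectedComponentsMap, ?_, ?_⟩
  · intro a b hab
    obtain ⟨a, rfl⟩ := ConnectedComponents.surjective_coe a
    obtain ⟨b, rfl⟩ := ConnectedComponents.surjective_coe b
    have h1 : (ConnectedComponents.mk (inclusion h.sub a) : ConnectedComponents W') =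
        ConnectedComponents.mk (inclusion h.sub b) := hab
    rw [connectedComponents_eq_iff] at h1
    exact (connectedComponents_eq_iff a b).mpr (h.un a a.2 b b.2 h1)
  · intro c
    obtain ⟨x, rfl⟩ := ConnectedComponents.surjective_coe c
    obtain ⟨y, hy, hyx⟩ := h.ex x x.2
    refine ⟨ConnectedComponents.mk ⟨y, hy⟩, ?_⟩
    exact (connectedComponents_eq_iff (inclusion h.sub ⟨y, hy⟩) x).mpr (cc_symm hyx)

theorem CompBij.card_eq {W W' : Set X} (h : CompBij W W') :
    Nat.card (ConnectedComponents W) = Nat.card (ConnectedComponents W') := by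
  obtain ⟨f, hf⟩ := h.exists_bijective
  exact Nat.card_congr (Equiv.ofBijective f hf)

theorem CompBij.finite_iff {W W' : Set X} (h : CompBij W W') :
    Finite (ConnectedComponents W) ↔ Finite (ConnectedComponents W') := by
  obtain ⟨f, hf⟩ := h.exists_bijective
  exact (Equiv.ofBijective f hf).finite_iff

/-! ### Nested continua -/

theorem isPreconnected_iInter_of_antitone [T2Space X] {D : ℕ → Set X} (hanti : Antitone D)
    (hc : ∀ j, IsCompact (D j)) (hp : ∀ j, IsPreconnected (D j)) :
    IsPreconnected (⋂ j, D j) := by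
  have hcl : IsClosed (⋂ j, D j) := isClosed_iInter fun j => (hc j).isClosed
  have hcc : IsCompact (⋂ j, D j) := (hc 0).of_isClosed_subset hcl (iInter_subset _ 0)
  rw [isPreconnected_iff_subset_of_fully_disjoint_closed hcl]
  intro u v hu hv huv hdis
  have h1 : IsCompact ((⋂ j, D j) ∩ u) := hcc.inter_right hu
  have h2 : IsCompact ((⋂ j, D j) ∩ v) := hcc.inter_right hv
  obtain ⟨U, V, hU, hV, huU, hvV, hUV⟩ := SeparatedNhds.of_isCompact_isCompact h1 h2
    (hdis.mono inter_subset_right inter_subset_right)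
  have hsub : (⋂ j, D j) ⊆ U ∪ V := fun x hx => (huv hx).imp (fun h => huU ⟨hx, h⟩)
    (fun h => hvV ⟨hx, h⟩)
  obtain ⟨j, hj⟩ := exists_subset_nhds_of_isCompact (V := D)
    (hanti.directed_ge) hc (fun x hx => (hU.union hV).mem_nhds (hsub hx))
  rcases isPreconnected_iff_subset_of_disjoint.mp (hp j) U V hU hV hj
    (by rw [(disjoint_iff_inter_eq_empty.mp hUV), inter_empty]) with h | h
  · left
    intro x hx
    rcases huv hx with h3 | h3
    · exact h3
    · exact absurd (hvV ⟨hx, h3⟩) (fun h4 => (disjoint_left.mp hUV) (h (mem_iInter.mp hx j)) h4)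
  · right
    intro x hx
    rcases huv hx with h3 | h3
    · exact absurd (huU ⟨hx, h3⟩) (fun h4 => (disjoint_left.mp hUV) h4 (h (mem_iInter.mp hx j)))
    · exact h3

/-- A decreasing sequence of open sets `W j` with compact sets in between; all inclusions are
bijective on components.  Then so is the inclusion of the intersection. -/
theorem CompBij.iInter [T2Space X] {W K : ℕ → Set X} (hK : ∀ j, IsCompact (K j))
    (hWK : ∀ j, W (j + 1) ⊆ K j) (hKW : ∀ j, K j ⊆ W j)
    (h : ∀ j, CompBij (W (j + 1)) (W j)) : CompBij (⋂ j, W j) (W 0) := by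
  have hbij : ∀ i j, i ≤ j → CompBij (W j) (W i) := by
    intro i j hij
    induction hij with
    | refl => exact CompBij.refl _
    | step _ ih => exact (h _).trans ih
  have hWKj : ∀ i j, i < j → W j ⊆ K i := by
    intro i j hij
    exact (hbij (i + 1) j hij).sub.trans (hWK i)
  have hZ : (⋂ j, W j) = ⋂ j, K j := by
    apply Subset.antisymm
    · exact subset_iInter fun j => (iInter_subset _ (j + 1)).trans (hWK j)
    · exact subset_iInter fun j => (iInter_subset _ j).trans (hKW j)
  have hKanti : Antitone K := antitone_nat_of_succ_le fun j => (hKW (j + 1)).trans (hWK j)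
  refine ⟨iInter_subset _ 0, fun x hx => ?_, fun a ha b hb hab => ?_⟩
  · -- existence
    choose y hy hyx using fun j => (hbij 0 j (Nat.zero_le j)).ex x hx
    -- `y j ∈ W j`, in the component of `x` in `W 0`
    have hy1 : ∀ i j, i ≤ j → y j ∈ connectedComponentIn (W i) (y i) := by
      intro i j hij
      refine (hbij 0 i (Nat.zero_le i)).un _ (hy i) _ ((hbij i j hij).sub (hy j)) ?_
      exact cc_trans (cc_symm (hyx i)) (hyx j)
    set C : ℕ → Set X := fun j => closure (connectedComponentIn (W (j + 1)) (y (j + 1))) with hC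
    have hCK : ∀ j, C j ⊆ K j := fun j =>
      closure_minimal ((connectedComponentIn_subset _ _).trans (hWK j)) (hK j).isClosed
    have hCanti : ∀ j, C (j + 1) ⊆ C j := by
      intro j
      refine closure_mono ?_
      have h1 : y (j + 1 + 1) ∈ connectedComponentIn (W (j + 1)) (y (j + 1)) :=
        hy1 (j + 1) (j + 1 + 1) (Nat.le_succ _)
      rw [connectedComponentIn_eq h1]
      exact connectedComponentIn_mono _ (h (j + 1)).sub
    obtain ⟨z, hz⟩ := IsCompact.nonempty_iInter_of_sequence_nonempty_isCompact_isClosed C hCanti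
      (fun j => ⟨y (j + 1), subset_closure (mem_connectedComponentIn (hy (j + 1)))⟩)
      ((hK 0).of_isClosed_subset isClosed_closure (hCK 0)) (fun j => isClosed_closure)
    refine ⟨z, ?_, ?_⟩
    · rw [hZ]
      exact mem_iInter.mpr fun j => hCK j (mem_iInter.mp hz j)
    · -- `C 0` is connected, in `K 0 ⊆ W 0`
      have h1 : IsPreconnected (C 0) := isPreconnected_connectedComponentIn.closure
      have h2 : y 1 ∈ C 0 := subset_closure (mem_connectedComponentIn (hy 1))
      have h3 : z ∈ connectedComponentIn (W 0) (y 1) :=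
        h1.subset_connectedComponentIn h2 ((hCK 0).trans (hKW 0)) (mem_iInter.mp hz 0)
      exact cc_trans (hyx 1) h3
  · -- uniqueness
    have haj : ∀ j, a ∈ W j := fun j => mem_iInter.mp ha j
    have hbj : ∀ j, b ∈ W j := fun j => mem_iInter.mp hb j
    have h1 : ∀ j, b ∈ connectedComponentIn (W j) a := fun j =>
      (hbij 0 j (Nat.zero_le j)).un a (haj j) b (hbj j) hab
    set C : ℕ → Set X := fun j => closure (connectedComponentIn (W (j + 1)) a) with hC
    have hCK : ∀ j, C j ⊆ K j := fun j =>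
      closure_minimal ((connectedComponentIn_subset _ _).trans (hWK j)) (hK j).isClosed
    have hCanti : Antitone C := antitone_nat_of_succ_le fun j =>
      closure_mono (connectedComponentIn_mono _ (h (j + 1)).sub)
    have h2 : IsPreconnected (⋂ j, C j) := isPreconnected_iInter_of_antitone hCanti
      (fun j => (hK j).of_isClosed_subset isClosed_closure (hCK j))
      (fun j => isPreconnected_connectedComponentIn.closure)
    have h3 : (⋂ j, C j) ⊆ ⋂ j, W j := by
      rw [hZ]
      exact iInter_mono hCK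
    exact h2.subset_connectedComponentIn
      (mem_iInter.mpr fun j => subset_closure (mem_connectedComponentIn (haj (j + 1)))) h3
      (mem_iInter.mpr fun j => subset_closure (h1 (j + 1)))

/-- An increasing union, exhausting: `Z m = Z ∩ {g ≤ τ m}`.  The components of `Z m` are traces
of open sets. -/
theorem CompBij.iUnion {Z : ℕ → Set X} (hbij : ∀ i j, i ≤ j → CompBij (Z i) (Z j))
    (hopen : ∀ m, ∀ a ∈ Z m, ∃ O : Set X, IsOpen O ∧ connectedComponentIn (Z m) a = Z m ∩ O)
    (hex : ∀ m, ∃ V : Set X, IsOpen V ∧ Z m ⊆ V ∧ V ∩ (⋃ j, Z j) ⊆ Z (m + 1)) :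
    CompBij (Z 0) (⋃ j, Z j) := by
  refine ⟨subset_iUnion _ 0, fun x hx => ?_, fun a ha b hb hab => ?_⟩
  · obtain ⟨m, hm⟩ := mem_iUnion.mp hx
    obtain ⟨y, hy, hyx⟩ := (hbij 0 m (Nat.zero_le m)).ex x hm
    exact ⟨y, hy, cc_mono (subset_iUnion _ m) hyx⟩
  · by_contra hcon
    -- the clopen set
    have key : ∀ x ∈ ⋃ j, Z j, ∃ U : Set X, IsOpen U ∧ x ∈ U ∧
        ∀ y ∈ U ∩ ⋃ j, Z j, ∃ m, y ∈ connectedComponentIn (Z m) x := by
      intro x hx
      obtain ⟨m, hm⟩ := mem_iUnion.mp hx
      obtain ⟨V, hV, hZV, hVZ⟩ := hex m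
      have hm' : x ∈ Z (m + 1) := (hbij m (m + 1) (Nat.le_succ m)).sub hm
      obtain ⟨O, hO, hcO⟩ := hopen (m + 1) x hm'
      refine ⟨V ∩ O, hV.inter hO, ⟨hZV hm, ?_⟩, fun y hy => ⟨m + 1, ?_⟩⟩
      · exact ((hcO ▸ mem_connectedComponentIn hm' : x ∈ Z (m + 1) ∩ O)).2
      · rw [hcO]
        exact ⟨hVZ ⟨hy.1.1, hy.2⟩, hy.1.2⟩
    choose U hU hxU hUy using key
    set A : Set X := {x | ∃ m, x ∈ connectedComponentIn (Z m) a} with hA
    have hlift : ∀ {x y : X} {m : ℕ} (m' : ℕ), m ≤ m' → y ∈ connectedComponentIn (Z m) x →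
        y ∈ connectedComponentIn (Z m') x := fun {x y m} m' hmm' hy =>
      cc_mono (hbij m m' hmm').sub hy
    have htr : ∀ {x y : X}, (∃ m, x ∈ connectedComponentIn (Z m) a) →
        (∃ m, y ∈ connectedComponentIn (Z m) x) → ∃ m, y ∈ connectedComponentIn (Z m) a := by
      rintro x y ⟨m, hm⟩ ⟨m', hm'⟩
      exact ⟨max m m', cc_trans (hlift _ (le_max_left _ _) hm) (hlift _ (le_max_right _ _) hm')⟩
    have hsy : ∀ {x y : X}, (∃ m, y ∈ connectedComponentIn (Z m) x) →
        ∃ m, x ∈ connectedComponentIn (Z m) y := by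
      rintro x y ⟨m, hm⟩
      exact ⟨m, cc_symm hm⟩
    -- separate
    set C := connectedComponentIn (⋃ j, Z j) a with hC
    have hCpre : IsPreconnected C := isPreconnected_connectedComponentIn
    have hCsub : C ⊆ ⋃ j, Z j := connectedComponentIn_subset _ _
    have haC : a ∈ C := mem_connectedComponentIn (subset_iUnion _ 0 ha)
    set U₁ : Set X := ⋃ x : {x : X // x ∈ (⋃ j, Z j) ∧ x ∈ A}, U x x.2.1 with hU₁
    set U₂ : Set X := ⋃ x : {x : X // x ∈ (⋃ j, Z j) ∧ x ∉ A}, U x x.2.1 with hU₂
    have hU₁o : IsOpen U₁ := isOpen_iUnion fun x => hU _ _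
    have hU₂o : IsOpen U₂ := isOpen_iUnion fun x => hU _ _
    have hcov : C ⊆ U₁ ∪ U₂ := by
      intro x hx
      by_cases hxA : x ∈ A
      · exact Or.inl (mem_iUnion.mpr ⟨⟨x, hCsub hx, hxA⟩, hxU _ _⟩)
      · exact Or.inr (mem_iUnion.mpr ⟨⟨x, hCsub hx, hxA⟩, hxU _ _⟩)
    have hbA : b ∉ A := by
      rintro ⟨m, hm⟩
      exact hcon ((hbij 0 m (Nat.zero_le m)).un a ha b hb hm)
    have haA : a ∈ A := ⟨0, mem_connectedComponentIn ha⟩
    have hdis : C ∩ (U₁ ∩ U₂) = ∅ := by
      rw [eq_empty_iff_forall_notMem]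
      rintro y ⟨hyC, hy1, hy2⟩
      obtain ⟨⟨x1, hx1, hx1A⟩, hy1⟩ := mem_iUnion.mp hy1
      obtain ⟨⟨x2, hx2, hx2A⟩, hy2⟩ := mem_iUnion.mp hy2
      have e1 := hUy x1 hx1 y ⟨hy1, hCsub hyC⟩
      have e2 := hUy x2 hx2 y ⟨hy2, hCsub hyC⟩
      exact hx2A (htr (htr hx1A e1) (hsy e2))
    rcases isPreconnected_iff_subset_of_disjoint.mp hCpre U₁ U₂ hU₁o hU₂o hcov hdis with h | h
    · -- `b ∈ U₁`
      obtain ⟨⟨x1, hx1, hx1A⟩, hb1⟩ := mem_iUnion.mp (h hab)
      exact hbA (htr hx1A (hUy x1 hx1 b ⟨hb1, hCsub hab⟩))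
    · obtain ⟨⟨x2, hx2, hx2A⟩, ha2⟩ := mem_iUnion.mp (h haC)
      have e2 := hUy x2 hx2 a ⟨ha2, hCsub haC⟩
      exact hx2A (htr haA (hsy e2))

end Pool.Agent.QC.S1
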