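import Pool.Agent.QC.S1.CompBij
import Pool.Agent.QC.S4.Fam
import Pool.Agent.QC.S4.Local

/-!
# MP_7c50a9_lc, section 1: the limit theorem

`F_{s,e} = G0 + sum_i (s (beta_i + e G_i))^2`.  If `{F_{s,e} = tau}` has no singular point for
`tau` large, `s` large, `e` small (uniformly on compact rectangles of `(tau, s)`), then
`{F_{s,e} < tau}` has as many components as `{beta = 0}`.
-/

namespace Pool.Agent.QC.S1

open Set Topology Filter Pool.Agent.QC.S4

set_option linter.unusedSectionVars false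
set_option linter.style.haveILetI false

variable {E : Type*} [NormedAddCommGroup E] [NormedSpace ℝ E] {ι : Type*} [Fintype ι]

/-- `F_{s,e}`. -/
def Fse (G0 : E → ℝ) (β G : ι → E → ℝ) (s e : ℝ) (x : E) : ℝ :=
  G0 x + ∑ i, (s * (β i x + e * G i x)) ^ 2

/-- The regularity hypothesis on a rectangle. -/
def RegRect (G0 : E → ℝ) (β G : ι → E → ℝ) (τ₁ τ₂ s₁ : ℝ) : Prop :=
  ∀ s₂, ∃ e₀ > 0, ∀ τ ∈ Icc τ₁ τ₂, ∀ s ∈ Icc s₁ s₂, ∀ e ∈ Ioc 0 e₀, ∀ x,
    Fse G0 β G s e x = τ → fderiv ℝ (Fse G0 β G s e) x ≠ 0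

variable {G0 : E → ℝ} {β G : ι → E → ℝ}

theorem RegRect.mono {τ₁ τ₂ τ₁' τ₂' s₁ : ℝ} (h : RegRect G0 β G τ₁ τ₂ s₁) (h1 : τ₁ ≤ τ₁')
    (h2 : τ₂' ≤ τ₂) : RegRect G0 β G τ₁' τ₂' s₁ := by
  intro s₂
  obtain ⟨e₀, he₀, h⟩ := h s₂
  exact ⟨e₀, he₀, fun τ hτ => h τ ⟨h1.trans hτ.1, hτ.2.trans h2⟩⟩

theorem G0_le_Fse (s e : ℝ) (x : E) : G0 x ≤ Fse G0 β G s e x := by
  have : 0 ≤ ∑ i, (s * (β i x + e * G i x)) ^ 2 := Finset.sum_nonneg fun i _ => sq_nonneg _
  unfold Fse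
  linarith

theorem Fse_eq (s e : ℝ) (x : E) :
    Fse G0 β G s e x = G0 x + s ^ 2 * ∑ i, (β i x + e * G i x) ^ 2 := by
  unfold Fse
  rw [Finset.mul_sum]
  congr 1
  exact Finset.sum_congr rfl fun i _ => by ring

theorem Fse_mono {s s' : ℝ} (hs : 0 ≤ s) (hss : s ≤ s') (e : ℝ) (x : E) :
    Fse G0 β G s e x ≤ Fse G0 β G s' e x := by
  rw [Fse_eq, Fse_eq]
  have h0 : 0 ≤ ∑ i, (β i x + e * G i x) ^ 2 := Finset.sum_nonneg fun i _ => sq_nonneg _
  have h1 : s ^ 2 ≤ s' ^ 2 := by gcongr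
  nlinarith [mul_le_mul_of_nonneg_right h1 h0]

theorem continuous_Fse (hG0 : Continuous G0) (hβ : ∀ i, Continuous (β i))
    (hG : ∀ i, Continuous (G i)) (s e : ℝ) : Continuous (Fse G0 β G s e) := by
  unfold Fse
  fun_prop

theorem contDiff_Fse (hG0 : ContDiff ℝ 1 G0) (hβ : ∀ i, ContDiff ℝ 1 (β i))
    (hG : ∀ i, ContDiff ℝ 1 (G i)) (s e : ℝ) : ContDiff ℝ 1 (Fse G0 β G s e) := by
  unfold Fse
  fun_prop

/-- Smallness in `e`. -/
theorem Fse_close (hβ : ∀ i, Continuous (β i)) (hG : ∀ i, Continuous (G i)) {C : Set E}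
    (hC : IsCompact C) (s₂ : ℝ) {κ : ℝ} (hκ : 0 < κ) :
    ∃ e₁ > 0, ∀ s ∈ Icc 0 s₂, ∀ e ∈ Icc 0 e₁, ∀ e' ∈ Icc 0 e₁, ∀ x ∈ C,
      |Fse G0 β G s e x - Fse G0 β G s e' x| < κ := by
  obtain ⟨B, hB⟩ := hC.exists_bound_of_continuousOn
    (f := fun x => ∑ i, (2 * |β i x * G i x| + (G i x) ^ 2)) (by fun_prop)
  set B' := max B 0 with hB'
  refine ⟨min 1 (κ / (2 * (s₂ ^ 2 * B' + 1))), by positivity, ?_⟩
  intro s hs e he e' he' x hx
  have hB0 : 0 ≤ B' := le_max_right _ _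
  have hQ : ∑ i, (2 * |β i x * G i x| + (G i x) ^ 2) ≤ B' :=
    ((le_abs_self _).trans (hB x hx)).trans (le_max_left _ _)
  have hs2 : s ^ 2 ≤ s₂ ^ 2 := by
    have := hs.1
    have := hs.2
    gcongr
  have one : ∀ e ∈ Icc 0 (min 1 (κ / (2 * (s₂ ^ 2 * B' + 1)))),
      |Fse G0 β G s e x - Fse G0 β G s 0 x| < κ / 2 := by
    intro e he
    have he1 : e ≤ 1 := he.2.trans (min_le_left _ _)
    have he2 : e ≤ κ / (2 * (s₂ ^ 2 * B' + 1)) := he.2.trans (min_le_right _ _)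
    have h1 : Fse G0 β G s e x - Fse G0 β G s 0 x =
        s ^ 2 * ∑ i, (e * (2 * (β i x * G i x)) + e ^ 2 * (G i x) ^ 2) := by
      rw [Fse_eq, Fse_eq, add_sub_add_left_eq_sub, ← mul_sub, ← Finset.sum_sub_distrib]
      congr 1
      exact Finset.sum_congr rfl fun i _ => by ring
    have h2 : |∑ i, (e * (2 * (β i x * G i x)) + e ^ 2 * (G i x) ^ 2)| ≤ e * B' := by
      refine (Finset.abs_sum_le_sum_abs _ _).trans ?_
      calc ∑ i, |e * (2 * (β i x * G i x)) + e ^ 2 * (G i x) ^ 2|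
          ≤ ∑ i, e * (2 * |β i x * G i x| + (G i x) ^ 2) := by
            refine Finset.sum_le_sum fun i _ => ?_
            refine (abs_add_le _ _).trans ?_
            rw [abs_mul, abs_mul, abs_of_nonneg he.1, abs_of_pos (by norm_num : (0 : ℝ) < 2),
              abs_of_nonneg (by positivity : (0 : ℝ) ≤ e ^ 2 * (G i x) ^ 2), mul_add]
            have : e ^ 2 * (G i x) ^ 2 ≤ e * (G i x) ^ 2 := by
              have := sq_nonneg (G i x)
              have h3 : e ^ 2 ≤ e := by nlinarith [he.1]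
              exact mul_le_mul_of_nonneg_right h3 this
            linarith
        _ = e * ∑ i, (2 * |β i x * G i x| + (G i x) ^ 2) := by rw [Finset.mul_sum]
        _ ≤ e * B' := mul_le_mul_of_nonneg_left hQ he.1
    rw [h1, abs_mul, abs_of_nonneg (sq_nonneg s)]
    have h3 : s ^ 2 * |∑ i, (e * (2 * (β i x * G i x)) + e ^ 2 * (G i x) ^ 2)| ≤
        s₂ ^ 2 * (e * B') := mul_le_mul hs2 h2 (abs_nonneg _) (sq_nonneg _)
    have h4 : s₂ ^ 2 * (e * B') = e * (s₂ ^ 2 * B') := by ring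
    have h5 : e * (s₂ ^ 2 * B') < κ / 2 := by
      have h6 : 0 < s₂ ^ 2 * B' + 1 := by positivity
      have h7 : e * (s₂ ^ 2 * B' + 1) ≤ κ / 2 := by
        calc e * (s₂ ^ 2 * B' + 1) ≤ κ / (2 * (s₂ ^ 2 * B' + 1)) * (s₂ ^ 2 * B' + 1) := by
              gcongr
          _ = κ / 2 := by field_simp
      rcases he.1.eq_or_lt with h8 | h8
      · rw [← h8]; simpa using hκ
      · nlinarith
    linarith
  have h1 := one e he
  have h2 := one e' he'
  have h3 : Fse G0 β G s e x - Fse G0 β G s e' x =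
      (Fse G0 β G s e x - Fse G0 β G s 0 x) - (Fse G0 β G s e' x - Fse G0 β G s 0 x) := by ring
  rw [h3]
  refine (abs_sub _ _).trans_lt ?_
  linarith

section Main

variable (hG0 : ContDiff ℝ 1 G0) (hβ : ∀ i, ContDiff ℝ 1 (β i)) (hG : ∀ i, ContDiff ℝ 1 (G i))
  (hcpt : ∀ c, IsCompact {x | G0 x ≤ c})

include hG0 hβ hG hcpt

theorem isCompact_Fse (s e c : ℝ) : IsCompact {x | Fse G0 β G s e x ≤ c} := by
  refine (hcpt c).of_isClosed_subset ?_ fun x hx => (G0_le_Fse s e x).trans hx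
  exact isClosed_le (continuous_Fse hG0.continuous (fun i => (hβ i).continuous)
    (fun i => (hG i).continuous) s e) continuous_const

/-- Claim A. -/
theorem compBij_mono {τ₁ τ₂ s₁ s₂ e : ℝ} (hs₁ : 0 ≤ s₁)
    (hreg : ∀ τ ∈ Icc τ₁ τ₂, ∀ s ∈ Icc s₁ s₂, ∀ x, Fse G0 β G s e x = τ →
      fderiv ℝ (Fse G0 β G s e) x ≠ 0) {τ τ' s s' : ℝ} (hτ : τ₁ ≤ τ) (hττ : τ < τ')
    (hτ' : τ' ≤ τ₂) (hs : s ≤ s₂) (hss : s' ≤ s) (hs' : s₁ ≤ s') :
    CompBij {x | Fse G0 β G s e x < τ} {x | Fse G0 β G s' e x < τ'} := by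
  classical
  set f : ℝ → E → ℝ := fun r x => (τ + r * (τ' - τ)) - Fse G0 β G (s + r * (s' - s)) e x with hf
  have hcont : ∀ x, Continuous fun r => f r x := by
    intro x
    simp only [hf, Fse_eq]
    fun_prop
  have hstrict : ∀ r ∈ Icc (0 : ℝ) 1, ∀ r' ∈ Icc (0 : ℝ) 1, r < r' → ∀ x, f r x < f r' x := by
    intro r hr r' hr' hrr x
    have h1 : 0 ≤ s + r' * (s' - s) := by
      have := hr'.1
      have := hr'.2
      nlinarith
    have h2 : s + r' * (s' - s) ≤ s + r * (s' - s) := by nlinarith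
    have h3 := Fse_mono (G0 := G0) (β := β) (G := G) h1 h2 e x
    simp only [hf]
    nlinarith
  have hfam : MonoFam 0 1 (fun r => {x | 0 < f r x}) (fun r => {x | 0 ≤ f r x}) := by
    refine ⟨zero_le_one, fun r _ => ?_, fun r _ => ?_, fun r _ x (hx : 0 < f r x) => hx.le, ?_, ?_, ?_⟩
    · exact isOpen_lt continuous_const (continuous_const.sub (continuous_Fse hG0.continuous
        (fun i => (hβ i).continuous) (fun i => (hG i).continuous) _ _))
    · have := isCompact_Fse hG0 hβ hG hcpt (s + r * (s' - s)) e (τ + r * (τ' - τ))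
      simpa [hf] using this
    · intro r hr r' hr' hrr x hx
      exact lt_of_le_of_lt hx (hstrict r hr r' hr' hrr x)
    · intro r hr x hx
      have h1 : ∀ᶠ r' in 𝓝 r, 0 < f r' x := (hcont x).continuousAt.eventually
        (lt_mem_nhds hx)
      obtain ⟨a, b, hab, hsub⟩ := mem_nhds_iff_exists_Ioo_subset.mp h1
      refine ⟨max 0 ((a + r) / 2), ⟨le_max_left _ _, max_lt hr.1 (by linarith [hab.1])⟩, ?_⟩
      have h2 : max 0 ((a + r) / 2) ∈ Ioo a b := by
        constructor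
        · exact lt_max_of_lt_right (by linarith [hab.1])
        · exact max_lt (hr.1.trans hab.2) (by linarith [hab.1, hab.2])
      have h3 : 0 < f (max 0 ((a + r) / 2)) x := hsub h2
      exact h3.le
    · intro r hr x hx
      have h1 : Tendsto (fun r' => f r' x) (𝓝[>] r) (𝓝 (f r x)) :=
        (hcont x).continuousAt.tendsto.mono_left nhdsWithin_le_nhds
      refine ge_of_tendsto h1 ?_
      filter_upwards [Ioc_mem_nhdsGT hr.2] with r' hr'
      exact hx r' hr'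
  have hregf : RegularOn 0 1 (fun r => {x | 0 < f r x}) (fun r => {x | 0 ≤ f r x}) := by
    intro r hr x hx
    have hx0 : f r x = 0 := le_antisymm (not_lt.mp hx.2) hx.1
    have hD : ContDiff ℝ 1 (Fse G0 β G (s + r * (s' - s)) e) := contDiff_Fse hG0 hβ hG _ _
    have h1 : HasStrictFDerivAt (f r) (-(fderiv ℝ (Fse G0 β G (s + r * (s' - s)) e) x)) x := by
      have := (hD.contDiffAt (x := x)).hasStrictFDerivAt (by norm_num)
      exact this.const_sub _
    refine locConn_of_regular h1 ?_ hx0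
    rw [neg_ne_zero]
    refine hreg (τ + r * (τ' - τ)) ?_ (s + r * (s' - s)) ?_ x (by simp only [hf] at hx0; linarith)
    · have := hr.1
      have := hr.2
      constructor <;> nlinarith
    · have := hr.1
      have := hr.2
      constructor <;> nlinarith
  have e0 : {x | 0 < f 0 x} = {x | Fse G0 β G s e x < τ} := by
    ext x; simp [hf]
  have e1 : {x | 0 < f 1 x} = {x | Fse G0 β G s' e x < τ'} := by
    ext x; simp [hf]
  rw [← e0, ← e1]
  refine ⟨hfam.mono ⟨le_rfl, zero_le_one⟩ ⟨zero_le_one, le_rfl⟩ zero_le_one, fun x hx => ?_,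
    fun a ha b hb hab => ?_⟩
  · exact hfam.regular_exists hregf hx
  · exact hfam.regular_unique hregf ha hb hab

/-- Claim B. -/
theorem compBij_two {τ₁ τ₂ s₁ : ℝ} (hs₁ : 0 ≤ s₁) (hreg : RegRect G0 β G τ₁ τ₂ s₁)
    {τ τ' s s' : ℝ} (hτ : τ₁ ≤ τ) (hττ : τ < τ') (hτ' : τ' ≤ τ₂) (hss : s' ≤ s) (hs' : s₁ ≤ s') :
    ∃ e₁ > 0, ∀ e ∈ Ioc 0 e₁, ∀ e' ∈ Ioc 0 e₁,
      CompBij {x | Fse G0 β G s e x < τ} {x | Fse G0 β G s' e' x < τ'} ∧
      {x | Fse G0 β G s e x ≤ τ} ⊆ {x | Fse G0 β G s' e' x < τ'} := by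
  obtain ⟨e₀, he₀, hreg⟩ := hreg s
  obtain ⟨e₂, he₂, hcl⟩ := Fse_close (G0 := G0) (β := β) (G := G) (fun i => (hβ i).continuous)
    (fun i => (hG i).continuous) (hcpt τ₂) s (κ := (τ' - τ) / 3) (by linarith)
  refine ⟨min e₀ e₂, lt_min he₀ he₂, fun e he e' he' => ?_⟩
  have h0 : ∀ e ∈ Ioc 0 (min e₀ e₂), e ∈ Ioc 0 e₀ ∧ e ∈ Icc 0 e₂ := fun e he =>
    ⟨⟨he.1, he.2.trans (min_le_left _ _)⟩, he.1.le, he.2.trans (min_le_right _ _)⟩
  have hs0 : 0 ≤ s' := hs₁.trans hs'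
  have hsI : s ∈ Icc 0 s := ⟨hs0.trans hss, le_rfl⟩
  have hsI' : s' ∈ Icc 0 s := ⟨hs0, hss⟩
  have hb : ∀ {t a b : ℝ} {x : E}, t ∈ Icc 0 s → a ∈ Ioc 0 (min e₀ e₂) →
      b ∈ Ioc 0 (min e₀ e₂) → G0 x ≤ τ₂ →
      Fse G0 β G t b x < Fse G0 β G t a x + (τ' - τ) / 3 := by
    intro t a b x ht ha hb hx
    have := hcl t ht a (h0 a ha).2 b (h0 b hb).2 x hx
    have := (abs_lt.mp this).1
    linarith
  have A1 : CompBij {x | Fse G0 β G s e x < τ} {x | Fse G0 β G s' e x < τ + 2 * ((τ' - τ) / 3)} :=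
    compBij_mono hG0 hβ hG hcpt hs₁ (fun τ hτ s hs x hx => hreg τ hτ s hs e (h0 e he).1 x hx)
      hτ (by linarith) (by linarith) le_rfl hss hs'
  have A2 : CompBij {x | Fse G0 β G s e' x < τ + (τ' - τ) / 3} {x | Fse G0 β G s' e' x < τ'} :=
    compBij_mono hG0 hβ hG hcpt hs₁ (fun τ hτ s hs x hx => hreg τ hτ s hs e' (h0 e' he').1 x hx)
      (by linarith) (by linarith) hτ' le_rfl hss hs'
  have S1 : {x | Fse G0 β G s e x < τ} ⊆ {x | Fse G0 β G s e' x < τ + (τ' - τ) / 3} := by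
    intro x hx
    have hx : Fse G0 β G s e x < τ := hx
    have hG0x : G0 x ≤ τ₂ := by linarith [G0_le_Fse (G0 := G0) (β := β) (G := G) s e x]
    have := hb hsI he he' hG0x
    have goal : Fse G0 β G s e' x < τ + (τ' - τ) / 3 := by linarith
    exact goal
  have S2 : {x | Fse G0 β G s e' x < τ + (τ' - τ) / 3} ⊆
      {x | Fse G0 β G s' e x < τ + 2 * ((τ' - τ) / 3)} := by
    intro x hx
    have hx : Fse G0 β G s e' x < τ + (τ' - τ) / 3 := hx
    have hG0x : G0 x ≤ τ₂ := by linarith [G0_le_Fse (G0 := G0) (β := β) (G := G) s e' x]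
    have h1 := hb hsI he' he hG0x
    have h2 := Fse_mono (G0 := G0) (β := β) (G := G) hs0 hss e x
    have goal : Fse G0 β G s' e x < τ + 2 * ((τ' - τ) / 3) := by linarith
    exact goal
  have S3 : {x | Fse G0 β G s' e x < τ + 2 * ((τ' - τ) / 3)} ⊆ {x | Fse G0 β G s' e' x < τ'} := by
    intro x hx
    have hx : Fse G0 β G s' e x < τ + 2 * ((τ' - τ) / 3) := hx
    have hG0x : G0 x ≤ τ₂ := by linarith [G0_le_Fse (G0 := G0) (β := β) (G := G) s' e x]
    have h1 := hb hsI' he he' hG0x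
    have goal : Fse G0 β G s' e' x < τ' := by linarith
    exact goal
  obtain ⟨B1, B2, B3⟩ := CompBij.sandwich S1 S2 S3 A1 A2
  refine ⟨(B1.trans B2).trans B3, fun x hx => ?_⟩
  have hx : Fse G0 β G s e x ≤ τ := hx
  have hG0x : G0 x ≤ τ₂ := by linarith [G0_le_Fse (G0 := G0) (β := β) (G := G) s e x]
  have h1 := hb hsI' he he' hG0x
  have h2 := Fse_mono (G0 := G0) (β := β) (G := G) hs0 hss e x
  have goal : Fse G0 β G s' e' x < τ' := by linarith
  exact goal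

/-- The truncated zero set. -/
def Zt (G0 : E → ℝ) (β : ι → E → ℝ) (τ : ℝ) : Set E := {x | G0 x ≤ τ ∧ ∀ i, β i x = 0}

omit hG0 hβ hG hcpt in
theorem Zt_mono {τ τ' : ℝ} (h : τ ≤ τ') : Zt G0 β τ ⊆ Zt G0 β τ' :=
  fun _ hx => ⟨hx.1.trans h, hx.2⟩

/-- Claim C. -/
theorem compBij_Zt {τ₁ τ₂ s₁ : ℝ} (hs₁ : 0 < s₁) (hreg : RegRect G0 β G τ₁ τ₂ s₁)
    {τs τ s : ℝ} (hτs : τ₁ ≤ τs) (hττ : τs < τ) (hτ : τ ≤ τ₂) (hs : s₁ ≤ s) :
    ∃ e₁ > 0, ∀ e ∈ Ioc 0 e₁, CompBij (Zt G0 β τs) {x | Fse G0 β G s e x < τ} := by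
  classical
  set t : ℕ → ℝ := fun j => τs + (τ - τs) / (j + 1) with ht
  set σ : ℕ → ℝ := fun j => s + j with hσ
  have ht0 : t 0 = τ := by simp [ht]
  have hσ0 : σ 0 = s := by simp [hσ]
  have hts : ∀ j, t (j + 1) < t j := by
    intro j
    simp only [ht]
    have : (0 : ℝ) < τ - τs := by linarith
    have : (τ - τs) / (((j + 1 : ℕ) : ℝ) + 1) < (τ - τs) / ((j : ℝ) + 1) := by
      apply div_lt_div_of_pos_left this (by positivity)
      push_cast
      linarith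
    linarith
  have htgt : ∀ j, τs < t j := by
    intro j
    simp only [ht]
    have : (0 : ℝ) < (τ - τs) / (j + 1) := div_pos (by linarith) (by positivity)
    linarith
  have htle : ∀ j, t j ≤ τ := by
    intro j
    have : Antitone t := antitone_nat_of_succ_le fun j => (hts j).le
    simpa [ht0] using this (Nat.zero_le j)
  choose e1 he1 h1 using fun j => compBij_two hG0 hβ hG hcpt hs₁.le hreg
    (τ := t (j + 1)) (τ' := t j) (s := σ (j + 1)) (s' := σ j)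
    (by linarith [htgt (j + 1)]) (hts j) (by linarith [htle j])
    (by simp [hσ]) (by simp only [hσ]; have : (0 : ℝ) ≤ j := Nat.cast_nonneg j; linarith)
  -- smallness making the truncated zero set a subset
  choose a ha h2 using fun j => Fse_close (G0 := G0) (β := β) (G := G)
    (fun i => (hβ i).continuous) (fun i => (hG i).continuous) (hcpt τ₂) (σ j)
    (κ := t j - τs) (by linarith [htgt j])
  refine ⟨min (e1 0) (a 0), lt_min (he1 0) (ha 0), fun e he => ?_⟩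
  set ε : ℕ → ℝ := fun j => Nat.casesOn j e
    (fun j => min (min (e1 (j + 1)) (e1 j)) (min (a (j + 1)) (1 / ((j : ℝ) + 1)))) with hε
  have hε0 : ε 0 = e := rfl
  have hεs : ∀ j, ε (j + 1) =
      min (min (e1 (j + 1)) (e1 j)) (min (a (j + 1)) (1 / ((j : ℝ) + 1))) := fun j => rfl
  have hεpos : ∀ j, 0 < ε j := by
    intro j
    cases j with
    | zero => exact he.1
    | succ j =>
      rw [hεs]
      exact lt_min (lt_min (he1 _) (he1 _)) (lt_min (ha _) (by positivity))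
  have hεe1 : ∀ j, ε j ≤ e1 j := by
    intro j
    cases j with
    | zero => exact he.2.trans (min_le_left _ _)
    | succ j => rw [hεs]; exact (min_le_left _ _).trans (min_le_left _ _)
  have hεe1' : ∀ j, ε (j + 1) ≤ e1 j := fun j => by
    rw [hεs]; exact (min_le_left _ _).trans (min_le_right _ _)
  have hεa : ∀ j, ε j ≤ a j := by
    intro j
    cases j with
    | zero => exact he.2.trans (min_le_right _ _)
    | succ j => rw [hεs]; exact (min_le_right _ _).trans (min_le_left _ _)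
  have hε1 : ∀ j, ε (j + 1) ≤ 1 / ((j : ℝ) + 1) := fun j => by
    rw [hεs]; exact (min_le_right _ _).trans (min_le_right _ _)
  set W : ℕ → Set E := fun j => {x | Fse G0 β G (σ j) (ε j) x < t j} with hW
  set K : ℕ → Set E := fun j => {x | Fse G0 β G (σ (j + 1)) (ε (j + 1)) x ≤ t (j + 1)} with hK
  have hbij : ∀ j, CompBij (W (j + 1)) (W j) := fun j =>
    (h1 j (ε (j + 1)) ⟨hεpos (j + 1), hεe1' j⟩ (ε j) ⟨hεpos j, hεe1 j⟩).1
  have hKW : ∀ j, K j ⊆ W j := fun j =>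
    (h1 j (ε (j + 1)) ⟨hεpos (j + 1), hεe1' j⟩ (ε j) ⟨hεpos j, hεe1 j⟩).2
  have hmain := CompBij.iInter (W := W) (K := K)
    (fun j => isCompact_Fse hG0 hβ hG hcpt _ _ _)
    (fun j x (hx : Fse G0 β G (σ (j + 1)) (ε (j + 1)) x < t (j + 1)) => hx.le) hKW hbij
  have hW0 : W 0 = {x | Fse G0 β G s e x < τ} := by
    simp only [hW, hσ0, hε0, ht0]
  have hσpos : ∀ j, 0 < σ j := fun j => by
    simp only [hσ]
    have : (0 : ℝ) ≤ j := Nat.cast_nonneg j
    linarith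
  have hZ : (⋂ j, W j) = Zt G0 β τs := by
    apply Subset.antisymm
    · intro x hx
      have hx : ∀ j, Fse G0 β G (σ j) (ε j) x < t j := fun j => mem_iInter.mp hx j
      have htl : Tendsto t atTop (𝓝 τs) := by
        have h3 : Tendsto (fun j : ℕ => (τ - τs) / ((j : ℝ) + 1)) atTop (𝓝 0) := by
          have := tendsto_one_div_add_atTop_nhds_zero_nat (𝕜 := ℝ)
          have := this.const_mul (τ - τs)
          simpa [div_eq_mul_inv] using this
        simpa [ht] using h3.const_add τs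
      have hG0x : G0 x ≤ τs := by
        refine ge_of_tendsto htl (Eventually.of_forall fun j => ?_)
        exact (G0_le_Fse _ _ _).trans (hx j).le
      refine ⟨hG0x, fun i => ?_⟩
      have h4 : ∀ j, (β i x + ε (j + 1) * G i x) ^ 2 ≤ (τ - G0 x) / (σ (j + 1)) ^ 2 := by
        intro j
        rw [le_div_iff₀ (pow_pos (hσpos _) 2)]
        have h5 := hx (j + 1)
        have h6 : (σ (j + 1) * (β i x + ε (j + 1) * G i x)) ^ 2 ≤
            ∑ i, (σ (j + 1) * (β i x + ε (j + 1) * G i x)) ^ 2 :=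
          Finset.single_le_sum (f := fun i => (σ (j + 1) * (β i x + ε (j + 1) * G i x)) ^ 2)
            (fun i _ => sq_nonneg _) (Finset.mem_univ i)
        have h7 := htle (j + 1)
        unfold Fse at h5
        nlinarith
      have hεl : Tendsto (fun j => ε (j + 1)) atTop (𝓝 0) :=
        squeeze_zero (fun j => (hεpos (j + 1)).le) hε1 tendsto_one_div_add_atTop_nhds_zero_nat
      have h8 : Tendsto (fun j => (β i x + ε (j + 1) * G i x) ^ 2) atTop
          (𝓝 ((β i x + 0 * G i x) ^ 2)) := ((hεl.mul_const _).const_add _).pow 2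
      have h9 : Tendsto (fun j : ℕ => (τ - G0 x) / (σ (j + 1)) ^ 2) atTop (𝓝 0) := by
        apply Tendsto.const_div_atTop
        apply (tendsto_pow_atTop (two_ne_zero)).comp
        simp only [hσ]
        apply tendsto_atTop_add_const_left
        exact (tendsto_natCast_atTop_atTop).comp (tendsto_add_atTop_nat 1)
      have h10 := le_of_tendsto_of_tendsto' h8 h9 h4
      have h11 : (β i x) ^ 2 ≤ 0 := by simpa using h10
      nlinarith [sq_nonneg (β i x), pow_eq_zero_iff (two_ne_zero) |>.mp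
        (le_antisymm h11 (sq_nonneg (β i x)))]
    · intro x hx
      refine mem_iInter.mpr fun j => ?_
      have h3 := h2 j (σ j) ⟨(hσpos j).le, le_rfl⟩ (ε j) ⟨(hεpos j).le, hεa j⟩ 0
        ⟨le_rfl, (ha j).le⟩ x (show G0 x ≤ τ₂ by linarith [hx.1])
      have h4 : Fse G0 β G (σ j) 0 x = G0 x := by
        unfold Fse
        simp [hx.2]
      rw [h4] at h3
      have h5 := (abs_lt.mp h3).2
      have goal : Fse G0 β G (σ j) (ε j) x < t j := by linarith [hx.1]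
      exact goal
  rw [← hZ, ← hW0]
  exact hmain

/-- Claim D. -/
theorem compBij_Zt_Zt {τ₁ τ₂ s₁ : ℝ} (hs₁ : 0 < s₁) (hreg : RegRect G0 β G τ₁ τ₂ s₁)
    {τ τ' : ℝ} (hτ : τ₁ ≤ τ) (hττ : τ ≤ τ') (hτ' : τ' < τ₂) :
    CompBij (Zt G0 β τ) (Zt G0 β τ') := by
  rcases hττ.eq_or_lt with rfl | hττ
  · exact CompBij.refl _
  obtain ⟨e₀, he₀, h0⟩ := hreg s₁
  obtain ⟨e₁, he₁, h1⟩ := compBij_Zt hG0 hβ hG hcpt hs₁ hreg (τs := τ) (τ := (τ + τ') / 2)
    hτ (by linarith) (by linarith) le_rfl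
  obtain ⟨e₂, he₂, h2⟩ := compBij_Zt hG0 hβ hG hcpt hs₁ hreg (τs := τ') (τ := τ₂)
    (by linarith) hτ' le_rfl le_rfl
  set e := min e₀ (min e₁ e₂) with he
  have hepos : 0 < e := lt_min he₀ (lt_min he₁ he₂)
  have hA := h1 e ⟨hepos, (min_le_right _ _).trans (min_le_left _ _)⟩
  have hB := h2 e ⟨hepos, (min_le_right _ _).trans (min_le_right _ _)⟩
  have hC : CompBij {x | Fse G0 β G s₁ e x < (τ + τ') / 2} {x | Fse G0 β G s₁ e x < τ₂} :=
    compBij_mono hG0 hβ hG hcpt hs₁.le (τ₁ := τ₁) (τ₂ := τ₂) (s₁ := s₁) (s₂ := s₁)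
      (fun τ hτ s hs x hx => h0 τ hτ s hs e ⟨hepos, min_le_left _ _⟩ x hx)
      (by linarith) (by linarith) le_rfl le_rfl le_rfl le_rfl
  exact CompBij.of_comp (Zt_mono hττ.le) (hA.trans hC) hB

/-- Claim E. -/
theorem compBij_Zt_Z {T₀ : ℝ} (hreg : ∀ τ₂, ∃ s₁ > 0, RegRect G0 β G T₀ τ₂ s₁) {τ : ℝ}
    (hτ : T₀ ≤ τ) : CompBij (Zt G0 β τ) {x | ∀ i, β i x = 0} := by
  have hU : (⋃ m : ℕ, Zt G0 β (τ + m)) = {x | ∀ i, β i x = 0} := by
    ext x
    constructor
    · intro hx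
      obtain ⟨m, hm⟩ := mem_iUnion.mp hx
      exact hm.2
    · intro hx
      obtain ⟨m, hm⟩ := exists_nat_ge (G0 x - τ)
      exact mem_iUnion.mpr ⟨m, by linarith, hx⟩
  have h0 : Zt G0 β (τ + (0 : ℕ)) = Zt G0 β τ := by simp
  rw [← hU, ← h0]
  refine CompBij.iUnion (Z := fun m : ℕ => Zt G0 β (τ + m)) ?_ ?_ ?_
  · intro i j hij
    obtain ⟨s₁, hs₁, h⟩ := hreg (τ + j + 1)
    have hij' : (i : ℝ) ≤ j := by exact_mod_cast hij
    have hi : (0 : ℝ) ≤ i := Nat.cast_nonneg i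
    exact compBij_Zt_Zt hG0 hβ hG hcpt hs₁ h (by linarith) (by linarith) (by linarith)
  · intro m a ha
    obtain ⟨s₁, hs₁, h⟩ := hreg (τ + m + 1)
    have hm : (0 : ℝ) ≤ m := Nat.cast_nonneg m
    obtain ⟨e₁, he₁, h1⟩ := compBij_Zt hG0 hβ hG hcpt hs₁ h (τs := τ + m) (τ := τ + m + 1)
      (by linarith) (by linarith) le_rfl le_rfl
    have h2 := h1 e₁ ⟨he₁, le_rfl⟩
    refine ⟨connectedComponentIn {x | Fse G0 β G s₁ e₁ x < τ + m + 1} a, ?_, h2.trace ha⟩
    exact (isOpen_lt (continuous_Fse hG0.continuous (fun i => (hβ i).continuous)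
      (fun i => (hG i).continuous) _ _) continuous_const).connectedComponentIn
  · intro m
    refine ⟨{x | G0 x < τ + (m + 1 : ℕ)}, isOpen_lt hG0.continuous continuous_const, ?_, ?_⟩
    · intro x hx
      have := hx.1
      show G0 x < _
      push_cast
      linarith
    · rintro x ⟨hx1, hx2⟩
      obtain ⟨j, hj⟩ := mem_iUnion.mp hx2
      exact ⟨le_of_lt hx1, hj.2⟩

/-- The truncated zero set has finitely many components. -/
theorem finite_Zt {T₀ : ℝ} (hreg : ∀ τ₂, ∃ s₁ > 0, RegRect G0 β G T₀ τ₂ s₁) {τ : ℝ}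
    (hτ : T₀ ≤ τ) : Finite (ConnectedComponents (Zt G0 β τ)) := by
  obtain ⟨s₁, hs₁, h⟩ := hreg (τ + 1)
  obtain ⟨e₁, he₁, h1⟩ := compBij_Zt hG0 hβ hG hcpt hs₁ h (τs := τ) (τ := τ + 1)
    hτ (by linarith) le_rfl le_rfl
  have h2 := h1 e₁ ⟨he₁, le_rfl⟩
  have hcl : IsClosed {x : E | ∀ i, β i x = 0} := by
    have : {x : E | ∀ i, β i x = 0} = ⋂ i, {x | β i x = 0} := by ext x; simp
    rw [this]
    exact isClosed_iInter fun i => isClosed_eq (hβ i).continuous continuous_const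
  have hZc : IsCompact (Zt G0 β τ) := by
    have : Zt G0 β τ = {x | G0 x ≤ τ} ∩ {x | ∀ i, β i x = 0} := rfl
    rw [this]
    exact (hcpt τ).inter_right hcl
  haveI : CompactSpace (Zt G0 β τ) := isCompact_iff_compactSpace.mp hZc
  haveI : DiscreteTopology (ConnectedComponents (Zt G0 β τ)) := by
    rw [discreteTopology_iff_isOpen_singleton]
    intro c
    obtain ⟨a, rfl⟩ := ConnectedComponents.surjective_coe c
    rw [← ConnectedComponents.isQuotientMap_coe.isOpen_preimage,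
      connectedComponents_preimage_singleton]
    have h3 : connectedComponent a =
        (Subtype.val : Zt G0 β τ → E) ⁻¹' (connectedComponentIn
          {x | Fse G0 β G s₁ e₁ x < τ + 1} a) := by
      ext b
      have h4 := h2.trace a.2
      rw [connectedComponentIn_eq_image a.2] at h4
      constructor
      · intro hb
        have : (b : E) ∈ Zt G0 β τ ∩ connectedComponentIn {x | Fse G0 β G s₁ e₁ x < τ + 1} a :=
          h4 ▸ ⟨b, hb, rfl⟩
        exact this.2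
      · intro hb
        have : (b : E) ∈ Subtype.val '' connectedComponent (⟨a, a.2⟩ : Zt G0 β τ) :=
          h4.symm ▸ ⟨b.2, hb⟩
        obtain ⟨b', hb', hbb⟩ := this
        rwa [Subtype.ext hbb] at hb'
    rw [h3]
    exact ((isOpen_lt (continuous_Fse hG0.continuous (fun i => (hβ i).continuous)
      (fun i => (hG i).continuous) _ _) continuous_const).connectedComponentIn).preimage
      continuous_subtype_val
  exact finite_of_compact_of_discrete

/-- **The limit theorem.** -/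
theorem limit {T₀ : ℝ} (hreg : ∀ τ₂, ∃ s₁ > 0, RegRect G0 β G T₀ τ₂ s₁) :
    Finite (ConnectedComponents {x | ∀ i, β i x = 0}) ∧
    ∀ τ > T₀, ∃ s₁ > 0, ∀ s ≥ s₁, ∃ e₁ > 0, ∀ e ∈ Ioc 0 e₁,
      Nat.card (ConnectedComponents {x | Fse G0 β G s e x < τ}) =
        Nat.card (ConnectedComponents {x | ∀ i, β i x = 0}) := by
  refine ⟨(compBij_Zt_Z hG0 hβ hG hcpt hreg le_rfl).finite_iff.mp
    (finite_Zt hG0 hβ hG hcpt hreg le_rfl), fun τ hτ => ?_⟩
  obtain ⟨s₁, hs₁, h⟩ := hreg τ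
  refine ⟨s₁, hs₁, fun s hs => ?_⟩
  obtain ⟨e₁, he₁, h1⟩ := compBij_Zt hG0 hβ hG hcpt hs₁ h (τs := T₀) (τ := τ)
    le_rfl hτ le_rfl hs
  refine ⟨e₁, he₁, fun e he => ?_⟩
  rw [← (h1 e he).card_eq, (compBij_Zt_Z hG0 hβ hG hcpt hreg le_rfl).card_eq]

end Main

end Pool.Agent.QC.S1
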