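import Mathlib

/-!
# MP_7c50a9_lc, section 1: slack variables

`Z = {(x, u, v) | b_i(x) = u_i ^ 2 + v_i ^ 2}` and `S = {x | 0 ≤ b_i(x)}` have the same number of
connected components.
-/

namespace Pool.Agent.QC.S1

open Set Topology

/-- A continuous map with a continuous section such that every point is in the component of the
section point below it is a bijection on components. -/
theorem bijective_of_section {Z S : Type*} [TopologicalSpace Z] [TopologicalSpace S] {p : Z → S}
    {σ : S → Z} (hp : Continuous p) (hσ : Continuous σ) (h1 : ∀ x, p (σ x) = x)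
    (h2 : ∀ z, σ (p z) ∈ connectedComponent z) :
    Function.Bijective hp.connectedComponentsMap := by
  constructor
  · intro a b hab
    obtain ⟨a, rfl⟩ := ConnectedComponents.surjective_coe a
    obtain ⟨b, rfl⟩ := ConnectedComponents.surjective_coe b
    have h3 : (ConnectedComponents.mk (p a)) = ConnectedComponents.mk (p b) := hab
    have h4 := congrArg hσ.connectedComponentsMap h3
    have h5 : (ConnectedComponents.mk (σ (p a))) = ConnectedComponents.mk (σ (p b)) := h4
    have h6 : ∀ z, (ConnectedComponents.mk (σ (p z))) = ConnectedComponents.mk z := fun z => by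
      rw [ConnectedComponents.coe_eq_coe']
      exact h2 z
    rwa [h6, h6] at h5
  · intro c
    obtain ⟨x, rfl⟩ := ConnectedComponents.surjective_coe c
    refine ⟨ConnectedComponents.mk (σ x), ?_⟩
    show ConnectedComponents.mk (p (σ x)) = _
    rw [h1]

variable {k N : ℕ} {ι : Type*}

/-- The equation `b_i(x) - u_i ^ 2 - v_i ^ 2`. -/
def slackEq (e : Fin k ⊕ ι ⊕ ι ≃ Fin N) (b : ι → (Fin k → ℝ) → ℝ) (i : ι) (X : Fin N → ℝ) : ℝ :=
  b i (fun a => X (e (Sum.inl a))) - X (e (Sum.inr (Sum.inl i))) ^ 2 -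
    X (e (Sum.inr (Sum.inr i))) ^ 2

theorem slack_bijective (e : Fin k ⊕ ι ⊕ ι ≃ Fin N) (b : ι → (Fin k → ℝ) → ℝ)
    (hb : ∀ i, Continuous (b i)) :
    ∃ f : ConnectedComponents {X : Fin N → ℝ | ∀ i, slackEq e b i X = 0} →
      ConnectedComponents {x : Fin k → ℝ | ∀ i, 0 ≤ b i x}, Function.Bijective f := by
  set Z : Set (Fin N → ℝ) := {X : Fin N → ℝ | ∀ i, slackEq e b i X = 0} with hZ
  set S : Set (Fin k → ℝ) := {x : Fin k → ℝ | ∀ i, 0 ≤ b i x} with hS
  let p : Z → S := fun X => ⟨fun a => X.1 (e (Sum.inl a)), fun i => by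
    have h := X.2 i
    unfold slackEq at h
    nlinarith [sq_nonneg (X.1 (e (Sum.inr (Sum.inl i)))),
      sq_nonneg (X.1 (e (Sum.inr (Sum.inr i))))]⟩
  let σ₀ : (Fin k → ℝ) → (Fin N → ℝ) := fun x j =>
    Sum.elim x (Sum.elim (fun i => Real.sqrt (b i x)) (fun _ => 0)) (e.symm j)
  have hσ₀ : ∀ x ∈ S, σ₀ x ∈ Z := by
    intro x hx i
    simp only [slackEq, σ₀, Equiv.symm_apply_apply, Sum.elim_inl, Sum.elim_inr]
    rw [Real.sq_sqrt (hx i)]
    ring
  have hσ₀c : Continuous σ₀ := by
    refine continuous_pi fun j => ?_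
    show Continuous fun x => Sum.elim x (Sum.elim (fun i => Real.sqrt (b i x)) (fun _ => 0))
      (e.symm j)
    rcases e.symm j with a | i | i
    · exact continuous_apply a
    · exact (hb i).sqrt
    · exact continuous_const
  let σ : S → Z := fun x => ⟨σ₀ x.1, hσ₀ x.1 x.2⟩
  have hp : Continuous p := by
    refine Continuous.subtype_mk ?_ _
    exact continuous_pi fun a => (continuous_apply _).comp continuous_subtype_val
  have hσ : Continuous σ := (hσ₀c.comp continuous_subtype_val).subtype_mk _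
  refine ⟨hp.connectedComponentsMap, bijective_of_section hp hσ ?_ ?_⟩
  · intro x
    apply Subtype.ext
    funext a
    simp [p, σ, σ₀]
  · intro z
    -- rotate
    let w : ι → ℂ := fun i =>
      ⟨z.1 (e (Sum.inr (Sum.inl i))), z.1 (e (Sum.inr (Sum.inr i)))⟩
    let γ₀ : ℝ → (Fin N → ℝ) := fun t j =>
      Sum.elim (fun a => z.1 (e (Sum.inl a)))
        (Sum.elim (fun i => ‖w i‖ * Real.cos (t * Complex.arg (w i)))
          (fun i => ‖w i‖ * Real.sin (t * Complex.arg (w i)))) (e.symm j)
    have hnorm : ∀ i, ‖w i‖ ^ 2 = b i (fun a => z.1 (e (Sum.inl a))) := by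
      intro i
      have h := z.2 i
      unfold slackEq at h
      rw [← Complex.normSq_eq_norm_sq, Complex.normSq_apply]
      show z.1 (e (Sum.inr (Sum.inl i))) * z.1 (e (Sum.inr (Sum.inl i))) +
        z.1 (e (Sum.inr (Sum.inr i))) * z.1 (e (Sum.inr (Sum.inr i))) = _
      linarith
    have hγZ : ∀ t, γ₀ t ∈ Z := by
      intro t i
      simp only [slackEq, γ₀, Equiv.symm_apply_apply, Sum.elim_inl, Sum.elim_inr]
      rw [← hnorm i]
      have := Real.sin_sq_add_cos_sq (t * Complex.arg (w i))
      have h3 : ‖w i‖ ^ 2 * (Real.sin (t * Complex.arg (w i)) ^ 2 +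
        Real.cos (t * Complex.arg (w i)) ^ 2) = ‖w i‖ ^ 2 := by rw [this, mul_one]
      nlinarith
    have hγc : Continuous γ₀ := by
      refine continuous_pi fun j => ?_
      show Continuous fun t => Sum.elim (fun a => z.1 (e (Sum.inl a)))
        (Sum.elim (fun i => ‖w i‖ * Real.cos (t * Complex.arg (w i)))
          (fun i => ‖w i‖ * Real.sin (t * Complex.arg (w i)))) (e.symm j)
      rcases e.symm j with a | i | i
      · exact continuous_const
      · simp only [Sum.elim_inr, Sum.elim_inl]
        fun_prop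
      · simp only [Sum.elim_inr]
        fun_prop
    let γ : ℝ → Z := fun t => ⟨γ₀ t, hγZ t⟩
    have hγ : Continuous γ := hγc.subtype_mk _
    have hγ1 : γ 1 = z := by
      apply Subtype.ext
      funext j
      obtain ⟨j', rfl⟩ := e.surjective j
      show Sum.elim (fun a => z.1 (e (Sum.inl a)))
        (Sum.elim (fun i => ‖w i‖ * Real.cos (1 * Complex.arg (w i)))
          (fun i => ‖w i‖ * Real.sin (1 * Complex.arg (w i)))) (e.symm (e j')) = z.1 (e j')
      rw [Equiv.symm_apply_apply]
      rcases j' with a | i | i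
      · rfl
      · simp only [Sum.elim_inr, Sum.elim_inl, one_mul]
        rw [Complex.norm_mul_cos_arg]
      · simp only [Sum.elim_inr, one_mul]
        rw [Complex.norm_mul_sin_arg]
    have hγ0 : γ 0 = σ (p z) := by
      apply Subtype.ext
      funext j
      obtain ⟨j', rfl⟩ := e.surjective j
      show Sum.elim (fun a => z.1 (e (Sum.inl a)))
        (Sum.elim (fun i => ‖w i‖ * Real.cos (0 * Complex.arg (w i)))
          (fun i => ‖w i‖ * Real.sin (0 * Complex.arg (w i)))) (e.symm (e j')) =
        Sum.elim (fun a => z.1 (e (Sum.inl a))) (Sum.elim (fun i =>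
          Real.sqrt (b i (fun a => z.1 (e (Sum.inl a))))) (fun _ => 0)) (e.symm (e j'))
      rw [Equiv.symm_apply_apply]
      rcases j' with a | i | i
      · rfl
      · simp only [Sum.elim_inr, Sum.elim_inl, zero_mul, Real.cos_zero, mul_one]
        rw [← hnorm i, Real.sqrt_sq (norm_nonneg _)]
      · simp
    have h5 : IsPreconnected (range γ) := isPreconnected_range hγ
    exact h5.subset_connectedComponent ⟨1, hγ1⟩ ⟨0, hγ0⟩

theorem slack_card (e : Fin k ⊕ ι ⊕ ι ≃ Fin N) (b : ι → (Fin k → ℝ) → ℝ)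
    (hb : ∀ i, Continuous (b i)) :
    Nat.card (ConnectedComponents {X : Fin N → ℝ | ∀ i, slackEq e b i X = 0}) =
      Nat.card (ConnectedComponents {x : Fin k → ℝ | ∀ i, 0 ≤ b i x}) := by
  obtain ⟨f, hf⟩ := slack_bijective e b hb
  exact Nat.card_congr (Equiv.ofBijective f hf)

theorem slack_finite (e : Fin k ⊕ ι ⊕ ι ≃ Fin N) (b : ι → (Fin k → ℝ) → ℝ)
    (hb : ∀ i, Continuous (b i))
    (h : Finite (ConnectedComponents {X : Fin N → ℝ | ∀ i, slackEq e b i X = 0})) :
    Finite (ConnectedComponents {x : Fin k → ℝ | ∀ i, 0 ≤ b i x}) := by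
  obtain ⟨f, hf⟩ := slack_bijective e b hb
  exact Finite.of_surjective f hf.2

end Pool.Agent.QC.S1
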